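import Mathlib

/-!
# Semigroups with infinite representation counts and full intersection sets

We determine all semigroups `S` for which `H*_N(S) = {N}` and, for all large `h`, some element
has infinitely many `h`-fold factorisations.
-/

set_option autoImplicit false

namespace Pool.Agent.Results.MP_3b8abe_co.Determination

open Filter

/-- The (nonempty) list `l` has product `x` in the semigroup `S`
(the product is computed in `S` with an identity adjoined). -/
def HasProd {S : Type*} [Semigroup S] (l : List S) (x : S) : Prop :=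
  (l.map ((↑) : S → WithOne S)).prod = (x : WithOne S)

/-- The factorisations `x = a_1 a_2 ⋯ a_h` with all `a_i ∈ A`, as lists of length `h`. -/
def reps {S : Type*} [Semigroup S] (A : Set S) (h : ℕ) (x : S) : Set (List S) :=
  {l | l.length = h ∧ (∀ a ∈ l, a ∈ A) ∧ HasProd l x}

/-- The `h`-fold product set `A ^ h = {a_1 a_2 ⋯ a_h : a_i ∈ A}`. -/
def pow {S : Type*} [Semigroup S] (A : Set S) (h : ℕ) : Set S :=
  {x | ∃ l : List S, l ∈ reps A h x}

/-- Asymptotically strictly decreasing sequences of subsets of `S`. -/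
def AsympStrictDecr {S : Type*} (A : ℕ → Set S) : Prop :=
  (∀ q, A (q + 1) ⊆ A q) ∧ {q | A (q + 1) ≠ A q}.Infinite

/-- The intersection set `H(A_q) = {h ≥ 1 : A ^ h = ⋂ A_q ^ h}`, where `A = ⋂ A_q`. -/
def Hset {S : Type*} [Semigroup S] (A : ℕ → Set S) : Set ℕ :=
  {h | 1 ≤ h ∧ pow (⋂ q, A q) h = ⋂ q, pow (A q) h}

/-- `H*_N(S)`: the collection of the sets `H(A_q)` of all asymptotically strictly decreasing
sequences in `S`. -/
def HStar (S : Type*) [Semigroup S] : Set (Set ℕ) :=
  {H | ∃ A : ℕ → Set S, AsympStrictDecr A ∧ H = Hset A}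

/-- Property 1: there is `h₀ ≥ 1` such that for every `h ≥ h₀` some `x ∈ S` has infinitely many
`h`-fold factorisations. -/
def Property1 (S : Type*) [Semigroup S] : Prop :=
  ∃ h₀ : ℕ, 1 ≤ h₀ ∧ ∀ h ≥ h₀, ∃ x : S, (reps (Set.univ : Set S) h x).Infinite

/-- Property 2: `H*_N(S) = {N}`. -/
def Property2 (S : Type*) [Semigroup S] : Prop :=
  HStar S = {{h : ℕ | 1 ≤ h}}

/-! ### The condition `F` -/

/-- Every `x` has finitely many square roots and finitely many factorisations `x = f a b` into
two elements neither of which is a square root of `x`. -/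
def FinCond {S : Type*} (f : S → S → S) : Prop :=
  ∀ x : S, {a : S | f a a = x}.Finite ∧
    {p : S × S | f p.1 p.2 = x ∧ f p.1 p.1 ≠ x ∧ f p.2 p.2 ≠ x}.Finite

theorem FinCond.swap {S : Type*} {f : S → S → S} (hF : FinCond f) :
    FinCond (fun a b => f b a) := by
  intro x
  refine ⟨(hF x).1, ?_⟩
  have h := (hF x).2.preimage (f := (Prod.swap : S × S → S × S))
    (Prod.swap_injective.injOn)
  refine h.subset ?_
  rintro ⟨a, b⟩ ⟨h1, h2, h3⟩
  exact ⟨h1, h3, h2⟩

theorem lemma1 {S : Type*} {f : S → S → S} (hF : FinCond f) {a x : S}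
    (h : {b | f a b = x}.Infinite) : f a a = x := by
  by_contra hne
  apply h
  refine ((hF x).1.union ((hF x).2.image Prod.snd)).subset ?_
  intro b hb
  by_cases hbb : f b b = x
  · exact Or.inl hbb
  · exact Or.inr ⟨(a, b), ⟨hb, hne, hbb⟩, rfl⟩

theorem lemma2 {S : Type*} {f : S → S → S} (hassoc : ∀ a b c, f (f a b) c = f a (f b c))
    (hF : FinCond f) {a : S} (h : {b | f a b = f a a}.Infinite) : f a (f a a) = f a a := by
  by_contra hne
  have hZ : {c | f a c = f a (f a a)}.Finite := by
    by_contra hinf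
    exact hne (lemma1 hF hinf).symm
  apply h
  refine (hZ.biUnion (fun z _ => (hF z).1)).subset ?_
  intro b hb
  have hb' : f a b = f a a := hb
  refine Set.mem_biUnion (x := f b b) ?_ rfl
  show f a (f b b) = f a (f a a)
  rw [← hassoc, hb', hassoc, hb']

section

variable {S : Type*} [Semigroup S]

theorem left_inf (hF : FinCond (fun a b : S => a * b)) {a x : S}
    (h : {b | a * b = x}.Infinite) : a * a = x ∧ a * x = x := by
  have h1 : a * a = x := lemma1 hF h
  subst h1
  exact ⟨rfl, lemma2 (fun a b c => mul_assoc a b c) hF h⟩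

theorem right_inf (hF : FinCond (fun a b : S => a * b)) {a x : S}
    (h : {b | b * a = x}.Infinite) : a * a = x ∧ a * x = x := by
  have h1 : a * a = x := lemma1 hF.swap h
  subst h1
  refine ⟨rfl, ?_⟩
  have := lemma2 (f := fun a b : S => b * a) (fun a b c => (mul_assoc c b a).symm) hF.swap h
  rw [← mul_assoc]
  exact this

/-! ### Products of lists -/

theorem reps_one (A : Set S) (x : S) (l : List S) :
    l ∈ reps A 1 x ↔ l = [x] ∧ x ∈ A := by
  constructor
  · rintro ⟨h1, h2, h3⟩
    obtain ⟨a, rfl⟩ := List.length_eq_one_iff.1 h1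
    have : a = x := by
      have h4 : ((a : S) : WithOne S) = x := by simpa [HasProd] using h3
      exact WithOne.coe_inj.1 h4
    subst this
    exact ⟨rfl, h2 a (by simp)⟩
  · rintro ⟨rfl, h⟩
    exact ⟨rfl, by simpa using h, by simp [HasProd]⟩

theorem hasProd_exists (l : List S) (hl : l ≠ []) : ∃ x : S, HasProd l x := by
  induction l with
  | nil => exact absurd rfl hl
  | cons a l ih =>
    by_cases h : l = []
    · subst h
      exact ⟨a, by simp [HasProd]⟩
    · obtain ⟨y, hy⟩ := ih h
      refine ⟨a * y, ?_⟩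
      have : (l.map ((↑) : S → WithOne S)).prod = (y : WithOne S) := hy
      simp [HasProd, this]

theorem hasProd_cons {a y : S} {l : List S} (h : HasProd l y) : HasProd (a :: l) (a * y) := by
  have : (l.map ((↑) : S → WithOne S)).prod = (y : WithOne S) := h
  simp [HasProd, this]

theorem hasProd_unique {l : List S} {x y : S} (hx : HasProd l x) (hy : HasProd l y) : x = y := by
  have : (x : WithOne S) = y := by
    rw [← show _ = _ from hx, ← show _ = _ from hy]
  exact WithOne.coe_inj.1 this

theorem hasProd_append {x y : S} {l m : List S} (h : HasProd l x) (h' : HasProd m y) :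
    HasProd (l ++ m) (x * y) := by
  have h1 : (l.map ((↑) : S → WithOne S)).prod = (x : WithOne S) := h
  have h2 : (m.map ((↑) : S → WithOne S)).prod = (y : WithOne S) := h'
  simp [HasProd, h1, h2]

theorem reps_succ {A : Set S} {h : ℕ} (hh : 1 ≤ h) {x : S} {l : List S}
    (hl : l ∈ reps A (h + 1) x) :
    ∃ a ∈ A, ∃ y : S, a * y = x ∧ ∃ m ∈ reps A h y, l = a :: m := by
  obtain ⟨h1, h2, h3⟩ := hl
  match l, h1 with
  | a :: m, h1 =>
    have hm : m.length = h := by simpa using h1
    have hm0 : m ≠ [] := by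
      rintro rfl
      simp at hm
      omega
    obtain ⟨y, hy⟩ := hasProd_exists m hm0
    refine ⟨a, h2 a (by simp), y, hasProd_unique (hasProd_cons hy) h3, m,
      ⟨hm, fun b hb => h2 b (by simp [hb]), hy⟩, rfl⟩

theorem mem_pow_one {A : Set S} {x : S} : x ∈ pow A 1 ↔ x ∈ A := by
  constructor
  · rintro ⟨l, hl⟩
    exact ((reps_one A x l).1 hl).2
  · intro h
    exact ⟨[x], (reps_one A x _).2 ⟨rfl, h⟩⟩

theorem cons_mem_pow {A : Set S} {h : ℕ} {a y : S} (ha : a ∈ A) (hy : y ∈ pow A h) :
    a * y ∈ pow A (h + 1) := by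
  obtain ⟨l, h1, h2, h3⟩ := hy
  refine ⟨a :: l, by simp [h1], ?_, hasProd_cons h3⟩
  intro b hb
  rcases List.mem_cons.1 hb with rfl | hb
  · exact ha
  · exact h2 b hb

theorem snoc_mem_pow {A : Set S} {h : ℕ} {a y : S} (ha : a ∈ A) (hy : y ∈ pow A h) :
    y * a ∈ pow A (h + 1) := by
  obtain ⟨l, h1, h2, h3⟩ := hy
  refine ⟨l ++ [a], by simp [h1], ?_, hasProd_append h3 (by simp [HasProd])⟩
  intro b hb
  rcases List.mem_append.1 hb with hb | hb
  · exact h2 b hb
  · rw [List.mem_singleton.1 hb]; exact ha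

theorem pow_succ_cons {A : Set S} {h : ℕ} (hh : 1 ≤ h) {x : S} (hx : x ∈ pow A (h + 1)) :
    ∃ a ∈ A, ∃ y ∈ pow A h, a * y = x := by
  obtain ⟨l, hl⟩ := hx
  obtain ⟨a, ha, y, hy, m, hm, _⟩ := reps_succ hh hl
  exact ⟨a, ha, y, ⟨m, hm⟩, hy⟩

theorem pow_succ_snoc {A : Set S} {h : ℕ} (hh : 1 ≤ h) {x : S} (hx : x ∈ pow A (h + 1)) :
    ∃ a ∈ A, ∃ y ∈ pow A h, y * a = x := by
  induction h, hh using Nat.le_induction generalizing x with
  | base =>
    obtain ⟨a, ha, y, hy, hxy⟩ := pow_succ_cons le_rfl hx
    exact ⟨y, mem_pow_one.1 hy, a, mem_pow_one.2 ha, hxy⟩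
  | succ h hh ih =>
    obtain ⟨a, ha, y, hy, hxy⟩ := pow_succ_cons (by omega) hx
    obtain ⟨b, hb, z, hz, hyz⟩ := ih hy
    exact ⟨b, hb, a * z, cons_mem_pow ha hz, by rw [mul_assoc, hyz, hxy]⟩

theorem pow_mono {A B : Set S} (hAB : A ⊆ B) (h : ℕ) : pow A h ⊆ pow B h := by
  rintro x ⟨l, h1, h2, h3⟩
  exact ⟨l, h1, fun a ha => hAB (h2 a ha), h3⟩

/-- If `a * (a * a) = a * a` with `a ∈ A` then `a * a` lies in every `A ^ n`, `n ≥ 2`. -/
theorem sq_mem_pow {A : Set S} {a : S} (ha : a ∈ A) (h : a * (a * a) = a * a) :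
    ∀ n : ℕ, 2 ≤ n → a * a ∈ pow A n := by
  intro n hn
  induction n, hn using Nat.le_induction with
  | base => exact cons_mem_pow ha (mem_pow_one.2 ha)
  | succ n hn ih =>
    have := cons_mem_pow ha ih
    rwa [h] at this

/-! ### Pigeonhole along a sequence -/

theorem pigeon {T : Type*} (g : ℕ → T) {s : Set T} (hs : s.Finite) {P : ℕ → Prop}
    (h : ∃ᶠ q in atTop, P q) (hg : ∀ q, P q → g q ∈ s) :
    ∃ t ∈ s, ∃ᶠ q in atTop, P q ∧ g q = t := by
  by_contra hcon
  push Not at hcon
  have h1 : ∀ᶠ q in atTop, ∀ t ∈ s, ¬ (P q ∧ g q = t) := by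
    rw [Filter.eventually_all_finite hs]
    intro t ht
    have := hcon t ht
    simpa [Filter.Frequently] using this
  apply h
  filter_upwards [h1] with q hq hP
  exact hq (g q) (hg q hP) ⟨hP, rfl⟩

theorem mem_of_freq {T : Type*} {B : ℕ → Set T} (hB : Antitone B) {t : T}
    (h : ∃ᶠ q in atTop, t ∈ B q) (q : ℕ) : t ∈ B q := by
  obtain ⟨q', hq', ht⟩ := (Filter.frequently_atTop.1 h) q
  exact hB hq' ht

/-! ### `F` implies property 2 -/

theorem main (hF : FinCond (fun a b : S => a * b)) {A : ℕ → Set S} (hA : Antitone A) :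
    ∀ h : ℕ, 1 ≤ h → ∀ x : S, (∀ q, x ∈ pow (A q) h) → x ∈ pow (⋂ q, A q) h := by
  intro h hh
  induction h, hh using Nat.le_induction with
  | base =>
    intro x hx
    rw [mem_pow_one]
    exact Set.mem_iInter.2 fun q => mem_pow_one.1 (hx q)
  | succ h hh ih =>
    intro x hx
    have hpow : Antitone (fun q => pow (A q) h) := fun p q hpq => pow_mono (hA hpq) h
    have hx' : ∀ q, ∃ a ∈ A q, ∃ y ∈ pow (A q) h, a * y = x :=
      fun q => pow_succ_cons hh (hx q)
    choose a ha y hy hxy using hx'
    have hcases : ∀ q, (a q, y q) ∈ {p : S × S | p.1 * p.2 = x ∧ p.1 * p.1 ≠ x ∧ p.2 * p.2 ≠ x} ∨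
        a q * a q = x ∨ y q * y q = x := by
      intro q
      by_cases h1 : a q * a q = x
      · exact Or.inr (Or.inl h1)
      · by_cases h2 : y q * y q = x
        · exact Or.inr (Or.inr h2)
        · exact Or.inl ⟨hxy q, h1, h2⟩
    have hfr : ∃ᶠ q in (atTop : Filter ℕ), ((a q, y q) ∈
        {p : S × S | p.1 * p.2 = x ∧ p.1 * p.1 ≠ x ∧ p.2 * p.2 ≠ x} ∨
        (a q * a q = x ∨ y q * y q = x)) :=
      (Filter.Eventually.of_forall hcases).frequently
    rw [Filter.frequently_or_distrib, Filter.frequently_or_distrib] at hfr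
    rcases hfr with h1 | h1 | h1
    · obtain ⟨⟨a0, y0⟩, hmem, hf⟩ := pigeon (fun q => (a q, y q)) (hF x).2 h1
        (fun q hq => hq)
      have ha0 : a0 ∈ ⋂ q, A q := by
        refine Set.mem_iInter.2 (mem_of_freq hA (hf.mono ?_))
        rintro q ⟨_, hq⟩
        rw [← (Prod.mk.inj hq).1]
        exact ha q
      have hy0 : y0 ∈ pow (⋂ q, A q) h := by
        refine ih y0 (mem_of_freq hpow (hf.mono ?_))
        rintro q ⟨_, hq⟩
        rw [← (Prod.mk.inj hq).2]
        exact hy q
      have := cons_mem_pow ha0 hy0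
      rwa [show a0 * y0 = x from hmem.1] at this
    · obtain ⟨a0, hmem, hf⟩ := pigeon a (hF x).1 h1 (fun q hq => hq)
      have ha0 : a0 ∈ ⋂ q, A q := by
        refine Set.mem_iInter.2 (mem_of_freq hA (hf.mono ?_))
        rintro q ⟨_, hq⟩
        rw [← hq]
        exact ha q
      by_cases hfin : {b | a0 * b = x}.Finite
      · obtain ⟨y0, hmem', hf'⟩ := pigeon y hfin hf (fun q hq => by
          show a0 * y q = x
          rw [← hq.2]
          exact hxy q)
        have hy0 : y0 ∈ pow (⋂ q, A q) h := by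
          refine ih y0 (mem_of_freq hpow (hf'.mono ?_))
          rintro q ⟨_, hq⟩
          rw [← hq]
          exact hy q
        have := cons_mem_pow ha0 hy0
        rwa [show a0 * y0 = x from hmem'] at this
      · obtain ⟨h2, h3⟩ := left_inf hF hfin
        rw [← h2] at h3 ⊢
        exact sq_mem_pow ha0 h3 _ (by omega)
    · obtain ⟨y0, hmem, hf⟩ := pigeon y (hF x).1 h1 (fun q hq => hq)
      have hy0 : y0 ∈ pow (⋂ q, A q) h := by
        refine ih y0 (mem_of_freq hpow (hf.mono ?_))
        rintro q ⟨_, hq⟩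
        rw [← hq]
        exact hy q
      -- a last factor `k` of `y0`
      have hk : ∃ k ∈ ⋂ q, A q, ∃ᶠ q in atTop, ∃ L ∈ pow (A q) h, L * k = x := by
        rcases Nat.lt_or_ge 1 h with h4 | h4
        · obtain ⟨h', rfl⟩ : ∃ h', h = h' + 1 := ⟨h - 1, by omega⟩
          obtain ⟨k, hk, z, hz, hzk⟩ := pow_succ_snoc (by omega) hy0
          refine ⟨k, hk, hf.mono ?_⟩
          rintro q ⟨_, hq⟩
          refine ⟨a q * z, cons_mem_pow (ha q) (pow_mono (Set.iInter_subset _ q) _ hz), ?_⟩
          rw [mul_assoc, hzk, ← hq, hxy q]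
        · obtain rfl : h = 1 := by omega
          refine ⟨y0, mem_pow_one.1 hy0, hf.mono ?_⟩
          rintro q ⟨_, hq⟩
          refine ⟨a q, mem_pow_one.2 (ha q), ?_⟩
          rw [← hq, hxy q]
      obtain ⟨k, hk, hfk⟩ := hk
      by_cases hfin : {L | L * k = x}.Finite
      · classical
        let L : ℕ → S := fun q =>
          if hq : ∃ L ∈ pow (A q) h, L * k = x then hq.choose else x
        obtain ⟨L0, hL0, hf'⟩ := pigeon L hfin hfk (fun q hq => by
          show (if hq : ∃ L ∈ pow (A q) h, L * k = x then hq.choose else x) * k = x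
          rw [dif_pos hq]
          exact hq.choose_spec.2)
        have hL : L0 ∈ pow (⋂ q, A q) h := by
          refine ih L0 (mem_of_freq hpow (hf'.mono ?_))
          rintro q ⟨hq, hq'⟩
          rw [← hq']
          show (if hq : ∃ L ∈ pow (A q) h, L * k = x then hq.choose else x) ∈ pow (A q) h
          rw [dif_pos hq]
          exact hq.choose_spec.1
        have := snoc_mem_pow hk hL
        rwa [show L0 * k = x from hL0] at this
      · obtain ⟨h2, h3⟩ := right_inf hF hfin
        rw [← h2] at h3 ⊢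
        exact sq_mem_pow hk h3 _ (by omega)

/-! ### Property 2 implies `F` -/

/-- The tail lemma: petals `D i`, kernel `K`. -/
theorem tail (hH : ∀ A : ℕ → Set S, AsympStrictDecr A → 2 ∈ Hset A) {x : S} (K : Set S)
    (D : ℕ → Set S) (hne : ∀ i, (D i).Nonempty) (hdisj : ∀ i j, i ≠ j → Disjoint (D i) (D j))
    (hK : ∀ i, Disjoint K (D i))
    (hx : ∀ i, ∃ a ∈ K ∪ D i, ∃ b ∈ K ∪ D i, a * b = x) : ∃ a ∈ K, ∃ b ∈ K, a * b = x := by
  set A : ℕ → Set S := fun q => K ∪ ⋃ i ≥ q, D i with hAdef
  have hinter : ⋂ q, A q = K := by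
    apply Set.Subset.antisymm
    · intro y hy
      rw [Set.mem_iInter] at hy
      by_contra hyK
      have h0 : y ∈ A 0 := hy 0
      rcases h0 with h0 | h0
      · exact hyK h0
      · simp only [Set.mem_iUnion] at h0
        obtain ⟨i, _, hi⟩ := h0
        rcases hy (i + 1) with h1 | h1
        · exact hyK h1
        · simp only [Set.mem_iUnion] at h1
          obtain ⟨j, hj, hj'⟩ := h1
          exact Set.disjoint_left.1 (hdisj i j (by omega)) hi hj'
    · intro y hy
      rw [Set.mem_iInter]
      exact fun q => Or.inl hy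
  have hdec : ∀ q, A (q + 1) ⊆ A q := by
    intro q y hy
    rcases hy with hy | hy
    · exact Or.inl hy
    · simp only [Set.mem_iUnion] at hy
      obtain ⟨i, hi, hy⟩ := hy
      refine Or.inr ?_
      simp only [Set.mem_iUnion]
      exact ⟨i, by omega, hy⟩
  have hstrict : ∀ q, A (q + 1) ≠ A q := by
    intro q heq
    obtain ⟨y, hy⟩ := hne q
    have : y ∈ A (q + 1) := by
      rw [heq]
      refine Or.inr ?_
      simp only [Set.mem_iUnion]
      exact ⟨q, le_rfl, hy⟩
    rcases this with h1 | h1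
    · exact Set.disjoint_left.1 (hK q) h1 hy
    · simp only [Set.mem_iUnion] at h1
      obtain ⟨j, hj, hj'⟩ := h1
      exact Set.disjoint_left.1 (hdisj q j (by omega)) hy hj'
  have h2 := (hH A ⟨hdec, by
    rw [show {q | A (q + 1) ≠ A q} = Set.univ from Set.eq_univ_of_forall hstrict]
    exact Set.infinite_univ⟩).2
  have hxmem : x ∈ ⋂ q, pow (A q) 2 := by
    rw [Set.mem_iInter]
    intro q
    obtain ⟨a, ha, b, hb, hab⟩ := hx q
    have hsub : K ∪ D q ⊆ A q := by
      intro y hy
      rcases hy with hy | hy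
      · exact Or.inl hy
      · refine Or.inr ?_
        simp only [Set.mem_iUnion]
        exact ⟨q, le_rfl, hy⟩
    rw [← hab]
    exact cons_mem_pow (hsub ha) (mem_pow_one.2 (hsub hb))
  rw [← h2, hinter] at hxmem
  obtain ⟨a, ha, b, hb, hab⟩ := pow_succ_cons le_rfl hxmem
  exact ⟨a, ha, b, mem_pow_one.1 hb, hab⟩

theorem finCond_of (hH : ∀ A : ℕ → Set S, AsympStrictDecr A → 2 ∈ Hset A) :
    FinCond (fun a b : S => a * b) := by
  -- fibres
  have hL : ∀ a x : S, a * a ≠ x → {b | a * b = x}.Finite := by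
    intro a x hax
    by_contra hinf
    have hinf' : ({b | a * b = x} \ {a}).Infinite := Set.Infinite.sdiff hinf (Set.finite_singleton a)
    let g := hinf'.natEmbedding
    have hg : ∀ i, (g i : S) ∈ {b | a * b = x} \ {a} := fun i => (g i).2
    obtain ⟨c, hc, d, hd, hcd⟩ := tail hH (x := x) {a} (fun i => {(g i : S)})
      (fun i => Set.singleton_nonempty _)
      (fun i j hij => by
        rw [Set.disjoint_singleton]
        intro h
        exact hij (g.injective (Subtype.ext h)))
      (fun i => by
        rw [Set.disjoint_singleton]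
        intro h
        exact (hg i).2 h.symm)
      (fun i => ⟨a, Or.inl rfl, g i, Or.inr rfl, (hg i).1⟩)
    rw [Set.mem_singleton_iff.1 hc, Set.mem_singleton_iff.1 hd] at hcd
    exact hax hcd
  have hR : ∀ a x : S, a * a ≠ x → {b | b * a = x}.Finite := by
    intro a x hax
    by_contra hinf
    have hinf' : ({b | b * a = x} \ {a}).Infinite := Set.Infinite.sdiff hinf (Set.finite_singleton a)
    let g := hinf'.natEmbedding
    have hg : ∀ i, (g i : S) ∈ {b | b * a = x} \ {a} := fun i => (g i).2
    obtain ⟨c, hc, d, hd, hcd⟩ := tail hH (x := x) {a} (fun i => {(g i : S)})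
      (fun i => Set.singleton_nonempty _)
      (fun i j hij => by
        rw [Set.disjoint_singleton]
        intro h
        exact hij (g.injective (Subtype.ext h)))
      (fun i => by
        rw [Set.disjoint_singleton]
        intro h
        exact (hg i).2 h.symm)
      (fun i => ⟨g i, Or.inr rfl, a, Or.inl rfl, (hg i).1⟩)
    rw [Set.mem_singleton_iff.1 hc, Set.mem_singleton_iff.1 hd] at hcd
    exact hax hcd
  intro x
  constructor
  · by_contra hinf
    have hinf' : {a : S | a * a = x}.Infinite := hinf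
    let g := hinf'.natEmbedding
    have hg : ∀ i, (g i : S) * g i = x := fun i => (g i).2
    obtain ⟨c, hc, _⟩ := tail hH (x := x) ∅ (fun i => {(g i : S)})
      (fun i => Set.singleton_nonempty _)
      (fun i j hij => by
        rw [Set.disjoint_singleton]
        intro h
        exact hij (g.injective (Subtype.ext h)))
      (fun i => by simp)
      (fun i => ⟨g i, Or.inr rfl, g i, Or.inr rfl, hg i⟩)
    exact hc
  · by_contra hinf
    set G : Set (S × S) := {p : S × S | p.1 * p.2 = x ∧ p.1 * p.1 ≠ x ∧ p.2 * p.2 ≠ x} with hG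
    have hinf' : G.Infinite := hinf
    -- a greedy matching
    obtain ⟨p, hp, hpd⟩ : ∃ p : ℕ → S × S, (∀ n, p n ∈ G) ∧
        ∀ m n, m < n → Disjoint ({(p m).1, (p m).2} : Set S) {(p n).1, (p n).2} := by
      refine exists_seq_of_forall_finset_exists (fun p : S × S => p ∈ G)
        (fun p q : S × S => Disjoint ({p.1, p.2} : Set S) {q.1, q.2}) ?_
      intro s hs
      by_contra hcon
      push Not at hcon
      apply hinf'
      have hcov : G ⊆ ⋃ q ∈ (s : Set (S × S)),
          ((fun b => (q.1, b)) '' {b | q.1 * b = x ∧ q.1 * q.1 ≠ x}) ∪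
          ((fun b => (q.2, b)) '' {b | q.2 * b = x ∧ q.2 * q.2 ≠ x}) ∪
          ((fun b => (b, q.1)) '' {b | b * q.1 = x ∧ q.1 * q.1 ≠ x}) ∪
          ((fun b => (b, q.2)) '' {b | b * q.2 = x ∧ q.2 * q.2 ≠ x}) := by
        intro r hr
        obtain ⟨q, hq, hqr⟩ := hcon r hr
        rw [Set.not_disjoint_iff] at hqr
        obtain ⟨z, hz, hz'⟩ := hqr
        refine Set.mem_biUnion (Finset.mem_coe.2 hq) ?_
        obtain ⟨r1, r2⟩ := r
        obtain ⟨q1, q2⟩ := q
        obtain ⟨h1, h2, h3⟩ := hr
        simp only at h1 h2 h3 hz hz' ⊢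
        rcases hz with hz | hz <;> rcases hz' with hz' | hz'
        · rw [hz] at hz'; subst hz'
          exact Or.inl (Or.inl (Or.inl ⟨r2, ⟨h1, h2⟩, rfl⟩))
        · have hz'' : z = r2 := hz'
          rw [hz] at hz''; subst hz''
          exact Or.inl (Or.inr ⟨r1, ⟨h1, h3⟩, rfl⟩)
        · have hz0 : z = q2 := hz
          rw [hz0] at hz'; subst hz'
          exact Or.inl (Or.inl (Or.inr ⟨r2, ⟨h1, h2⟩, rfl⟩))
        · have hz0 : z = q2 := hz
          have hz'' : z = r2 := hz'
          rw [hz0] at hz''; subst hz''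
          exact Or.inr ⟨r1, ⟨h1, h3⟩, rfl⟩
      refine Set.Finite.subset ?_ hcov
      refine Set.Finite.biUnion s.finite_toSet ?_
      have hLf : ∀ a : S, {b | a * b = x ∧ a * a ≠ x}.Finite := by
        intro a
        by_cases h : a * a = x
        · convert Set.finite_empty
          ext b
          simp [h]
        · exact (hL a x h).subset fun b hb => hb.1
      have hRf : ∀ a : S, {b | b * a = x ∧ a * a ≠ x}.Finite := by
        intro a
        by_cases h : a * a = x
        · convert Set.finite_empty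
          ext b
          simp [h]
        · exact (hR a x h).subset fun b hb => hb.1
      intro q _
      exact ((((hLf q.1).image _).union ((hLf q.2).image _)).union ((hRf q.1).image _)).union
        ((hRf q.2).image _)
    obtain ⟨c, hc, _⟩ := tail hH (x := x) ∅ (fun i => ({(p i).1, (p i).2} : Set S))
      (fun i => ⟨(p i).1, by simp⟩)
      (fun i j hij => by
        rcases lt_or_gt_of_ne hij with h | h
        · exact hpd i j h
        · exact (hpd j i h).symm)
      (fun i => by simp)
      (fun i => ⟨(p i).1, Or.inr (by simp), (p i).2, Or.inr (by simp), (hp i).1⟩)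
    exact hc

/-! ### Property 1 -/

/-- There is an idempotent `e` with infinitely many `b` such that `e b = e`, or infinitely many
`b` such that `b e = e`. -/
def Idem (S : Type*) [Semigroup S] : Prop :=
  ∃ e : S, e * e = e ∧ ({b : S | e * b = e}.Infinite ∨ {b : S | b * e = e}.Infinite)

theorem pairs_finite (hF : FinCond (fun a b : S => a * b)) (hE : ¬ Idem S) (x : S) :
    {p : S × S | p.1 * p.2 = x}.Finite := by
  have hLf : ∀ a : S, {b | a * b = x}.Finite := by
    intro a
    by_contra hinf
    obtain ⟨h1, h2⟩ := left_inf hF hinf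
    apply hE
    refine ⟨x, ?_, Or.inl ?_⟩
    · nth_rewrite 1 [← h1]
      rw [mul_assoc, h2, h2]
    · refine Set.Infinite.mono ?_ hinf
      intro b hb
      show x * b = x
      have hb' : a * b = x := hb
      nth_rewrite 1 [← h1]
      rw [mul_assoc, hb', h2]
  have hRf : ∀ a : S, {b | b * a = x}.Finite := by
    intro a
    by_contra hinf
    obtain ⟨h1, h2⟩ := right_inf hF hinf
    have h2' : x * a = x := by
      rw [← h1] at h2 ⊢
      rw [mul_assoc]
      exact h2
    apply hE
    refine ⟨x, ?_, Or.inr ?_⟩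
    · nth_rewrite 1 [← h1]
      rw [mul_assoc, h2, h2]
    · refine Set.Infinite.mono ?_ hinf
      intro b hb
      show b * x = x
      have hb' : b * a = x := hb
      nth_rewrite 1 [← h1]
      rw [← mul_assoc, hb', h2']
  refine (((hF x).2.union ((hF x).1.biUnion (fun a _ => (hLf a).image (fun b => (a, b))))).union
    ((hF x).1.biUnion (fun a _ => (hRf a).image (fun b => (b, a))))).subset ?_
  rintro ⟨a, b⟩ hab
  have hab' : a * b = x := hab
  by_cases h1 : a * a = x
  · refine Or.inl (Or.inr ?_)
    exact Set.mem_biUnion (x := a) h1 ⟨b, hab', rfl⟩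
  · by_cases h2 : b * b = x
    · refine Or.inr ?_
      exact Set.mem_biUnion (x := b) h2 ⟨a, hab', rfl⟩
    · exact Or.inl (Or.inl ⟨hab', h1, h2⟩)

theorem reps_finite (hF : FinCond (fun a b : S => a * b)) (hE : ¬ Idem S) :
    ∀ h : ℕ, 1 ≤ h → ∀ x : S, (reps (Set.univ : Set S) h x).Finite := by
  intro h hh
  induction h, hh using Nat.le_induction with
  | base =>
    intro x
    refine (Set.finite_singleton [x]).subset ?_
    intro l hl
    exact ((reps_one _ x l).1 hl).1
  | succ h hh ih =>
    intro x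
    refine ((pairs_finite hF hE x).biUnion
      (fun p _ => (ih p.2).image (fun m => p.1 :: m))).subset ?_
    intro l hl
    obtain ⟨a, _, y, hy, m, hm, rfl⟩ := reps_succ hh hl
    exact Set.mem_biUnion (x := (a, y)) hy ⟨m, hm, rfl⟩

theorem reps_infinite {e : S} (he : e * e = e)
    (h : {b : S | e * b = e}.Infinite ∨ {b : S | b * e = e}.Infinite) :
    ∀ n : ℕ, 2 ≤ n → (reps (Set.univ : Set S) n e).Infinite := by
  intro n hn
  induction n, hn using Nat.le_induction with
  | base =>
    rcases h with h | h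
    · have h1 : ((fun b : S => [e, b]) '' {b : S | e * b = e}).Infinite :=
        h.image (fun a _ b _ hab => by simpa using hab)
      refine h1.mono ?_
      rintro _ ⟨b, hb, rfl⟩
      refine ⟨rfl, fun _ _ => trivial, ?_⟩
      have : HasProd [e, b] (e * b) := hasProd_cons (by simp [HasProd])
      rwa [show e * b = e from hb] at this
    · have h1 : ((fun b : S => [b, e]) '' {b : S | b * e = e}).Infinite :=
        h.image (fun a _ b _ hab => by simpa using hab)
      refine h1.mono ?_
      rintro _ ⟨b, hb, rfl⟩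
      refine ⟨rfl, fun _ _ => trivial, ?_⟩
      have : HasProd [b, e] (b * e) := hasProd_cons (by simp [HasProd])
      rwa [show b * e = e from hb] at this
  | succ n hn ih =>
    have h1 : ((fun l : List S => e :: l) '' reps (Set.univ : Set S) n e).Infinite :=
      ih.image (fun a _ b _ hab => by simpa using hab)
    refine h1.mono ?_
    rintro _ ⟨l, ⟨hl1, _, hl3⟩, rfl⟩
    refine ⟨by simp [hl1], fun _ _ => trivial, ?_⟩
    have := hasProd_cons (a := e) hl3
    rwa [he] at this

omit [Semigroup S] in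
/-- A strictly decreasing sequence exists in an infinite type. -/
theorem exists_seq [Infinite S] : ∃ A : ℕ → Set S, AsympStrictDecr A := by
  let g := Infinite.natEmbedding S
  refine ⟨fun q => g '' {n | q ≤ n}, ?_, ?_⟩
  · intro q
    apply Set.image_mono
    intro n hn
    have : q + 1 ≤ n := hn
    show q ≤ n
    omega
  · have : {q : ℕ | (g '' {n | q + 1 ≤ n} : Set S) ≠ g '' {n | q ≤ n}} = Set.univ := by
      apply Set.eq_univ_of_forall
      intro q heq
      have h1 : g q ∈ (g '' {n | q ≤ n} : Set S) := ⟨q, le_refl q, rfl⟩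
      rw [← heq] at h1
      obtain ⟨n, hn, hnq⟩ := h1
      have hn' : q + 1 ≤ n := hn
      have := g.injective hnq
      omega
    show {q : ℕ | (g '' {n | q + 1 ≤ n} : Set S) ≠ g '' {n | q ≤ n}}.Infinite
    rw [this]
    exact Set.infinite_univ

theorem property2_iff : Property2 S ↔ Infinite S ∧ FinCond (fun a b : S => a * b) := by
  constructor
  · intro h
    have hH : ∀ A : ℕ → Set S, AsympStrictDecr A → Hset A = {h : ℕ | 1 ≤ h} := by
      intro A hA
      have : Hset A ∈ HStar S := ⟨A, hA, rfl⟩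
      rw [h] at this
      exact this
    constructor
    · by_contra hfin
      rw [not_infinite_iff_finite] at hfin
      have : {h : ℕ | 1 ≤ h} ∈ HStar S := by rw [h]; rfl
      obtain ⟨A, hA, _⟩ := this
      -- a finite type has no strictly decreasing infinite sequence of sets
      have hanti : Antitone A := antitone_nat_of_succ_le hA.1
      obtain ⟨n, hn⟩ : ∃ n, ∀ m, n ≤ m → A n = A m := by
        have hwf : WellFoundedLT (Set S) := inferInstance
        have hwg : WellFoundedGT (Set S)ᵒᵈ := inferInstance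
        obtain ⟨n, hn⟩ := WellFoundedGT.monotone_chain_condition (α := (Set S)ᵒᵈ)
          ⟨fun q => OrderDual.toDual (A q), fun p q hpq => hanti hpq⟩
        exact ⟨n, fun m hm => hn m hm⟩
      apply hA.2
      refine (Set.finite_lt_nat n).subset ?_
      intro q hq
      by_contra hqn
      have hqn' : n ≤ q := by simpa using hqn
      exact hq (by rw [← hn q hqn', ← hn (q + 1) (by omega)])
    · exact finCond_of (fun A hA => by rw [hH A hA]; show 1 ≤ 2; norm_num)
  · rintro ⟨hinf, hF⟩
    have hH : ∀ A : ℕ → Set S, AsympStrictDecr A → Hset A = {h : ℕ | 1 ≤ h} := by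
      intro A hA
      have hanti : Antitone A := antitone_nat_of_succ_le hA.1
      ext h
      constructor
      · intro hh
        exact hh.1
      · intro hh
        refine ⟨hh, ?_⟩
        apply Set.Subset.antisymm
        · intro x hx
          rw [Set.mem_iInter]
          exact fun q => pow_mono (Set.iInter_subset _ q) h hx
        · intro x hx
          rw [Set.mem_iInter] at hx
          exact main hF hanti h hh x hx
    show HStar S = {{h : ℕ | 1 ≤ h}}
    ext H
    constructor
    · rintro ⟨A, hA, rfl⟩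
      exact hH A hA
    · intro hHH
      have hHH' : H = {h : ℕ | 1 ≤ h} := hHH
      obtain ⟨A, hA⟩ := exists_seq (S := S)
      exact ⟨A, hA, by rw [hHH', hH A hA]⟩

end

/-- **Determination of the semigroups of the question.** For every semigroup `S`:

* property 2 (`H*_N(S) = {N}`) holds iff `S` is infinite and every `x ∈ S` has only finitely many
  square roots and only finitely many factorisations `x = a b` with `a² ≠ x` and `b² ≠ x`;
* properties 1 and 2 hold together iff this finiteness condition holds and some idempotent `e`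
  has infinitely many right identities `b` (`e b = e`) or infinitely many left identities
  (`b e = e`);
* if property 2 holds and property 1 fails, then every `x` has only finitely many `h`-fold
  factorisations for every `h ≥ 1`. -/
theorem result {S : Type*} [Semigroup S] :
    (Property2 S ↔ Infinite S ∧ ∀ x : S, {a : S | a * a = x}.Finite ∧
      {p : S × S | p.1 * p.2 = x ∧ p.1 * p.1 ≠ x ∧ p.2 * p.2 ≠ x}.Finite) ∧
    (Property1 S ∧ Property2 S ↔
      (∀ x : S, {a : S | a * a = x}.Finite ∧
        {p : S × S | p.1 * p.2 = x ∧ p.1 * p.1 ≠ x ∧ p.2 * p.2 ≠ x}.Finite) ∧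
      ∃ e : S, e * e = e ∧ ({b : S | e * b = e}.Infinite ∨ {b : S | b * e = e}.Infinite)) ∧
    (Property2 S → ¬ Property1 S →
      ∀ h : ℕ, 1 ≤ h → ∀ x : S, (reps (Set.univ : Set S) h x).Finite) := by
  refine ⟨property2_iff, ⟨?_, ?_⟩, ?_⟩
  · rintro ⟨⟨h₀, hh₀, h1⟩, h2⟩
    obtain ⟨_, hF⟩ := property2_iff.1 h2
    refine ⟨hF, ?_⟩
    by_contra hE
    obtain ⟨x, hx⟩ := h1 h₀ le_rfl
    exact hx (reps_finite hF hE h₀ hh₀ x)
  · rintro ⟨hF, e, he, hinf⟩
    have hP1 : Property1 S := ⟨2, by norm_num, fun h hh => ⟨e, reps_infinite he hinf h hh⟩⟩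
    have hinfS : Infinite S := by
      rcases hinf with h | h
      · exact Set.infinite_univ_iff.1 (h.mono (Set.subset_univ _))
      · exact Set.infinite_univ_iff.1 (h.mono (Set.subset_univ _))
    exact ⟨hP1, property2_iff.2 ⟨hinfS, hF⟩⟩
  · intro h2 h1 
    obtain ⟨_, hF⟩ := property2_iff.1 h2
    apply reps_finite hF
    rintro ⟨e, he, hinf⟩
    exact h1 ⟨2, by norm_num, fun h hh => ⟨e, reps_infinite he hinf h hh⟩⟩

end Pool.Agent.Results.MP_3b8abe_co.Determination
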